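import Pool.Agent.N557.QW.Stm

/-!
# Project QWP (helper557), part GNS: the GNS representation of a state of `B(H)` (helper717)
-/

set_option autoImplicit false

namespace Pool.Agent.N717.QWP

open Pool.Agent.N557.QW
open scoped ComplexOrder CStarAlgebra

noncomputable section

theorem t_gns : S_GNS := by
  intro H _ _ _ θ h1 hpos
  have hp : ∀ x : H →L[ℂ] H, 0 ≤ x → 0 ≤ θ x := by
    intro x hx
    obtain ⟨y, rfl⟩ := CStarAlgebra.nonneg_iff_eq_star_mul_self.1 hx
    exact hpos y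
  let f : (H →L[ℂ] H) →ₚ[ℂ] ℂ := PositiveLinearMap.mk₀ θ hp
  refine ⟨f.GNS, inferInstance, inferInstance, inferInstance, f.gnsStarAlgHom,
    ((f.toPreGNS 1 : f.PreGNS) : f.GNS), fun x => ?_⟩
  change inner ℂ ((f.toPreGNS 1 : f.PreGNS) : f.GNS)
    (f.gnsNonUnitalStarAlgHom x ((f.toPreGNS 1 : f.PreGNS) : f.GNS)) = θ x
  rw [PositiveLinearMap.gnsNonUnitalStarAlgHom_apply_coe, UniformSpace.Completion.inner_coe,
    PositiveLinearMap.preGNS_inner_def]
  simp [f]
  rfl

end

end Pool.Agent.N717.QWP
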